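import Pool.Agent.PSP.Complete
import Pool.Agent.ArcK.Final

/-!
Arc-Kayles is PSPACE-complete (Q1 of MP_0d760e_lc).
-/

namespace Pool.Agent.Results.MP_0d760e_lc.ArcKaylesPSPACEComplete

/-- ARC-KAYLES, the set of the adjacency matrices of the finite graphs on which the first player
has a winning strategy, is PSPACE-complete: it is decided in polynomial space, and every language
decided in polynomial space is polynomial-time many-one reducible to it. -/
theorem result : PSP.PSPACEComplete PSP.arcKayles := PSP.complete ArcK.reduction

end Pool.Agent.Results.MP_0d760e_lc.ArcKaylesPSPACEComplete
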